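import Pool.Agent.Helper669.Forcing
import Pool.Agent.Helper126.Fact

/-!
# Finite support iterations along a well-founded relation of the posets which bound functions

`I` indexes the Cohen reals `x i`, and `Λ` the iterands; the iterand with index `ξ` adds open sets
`U ξ m` such that `x i ∈ U ξ m` whenever `A ξ m i` holds, and such that every `x i` is in finitely
many of the sets `U ξ m`. The condition `(ξ, n, i) ∈ E` promises that `x i ∉ U ξ m` for `m ≥ n`.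
-/

set_option autoImplicit false

namespace Pool.Agent.K4H97.DS

/-! ### Strings -/

/-- incompatible strings -/
def Perp (s t : List Bool) : Prop := ¬ s <+: t ∧ ¬ t <+: s

theorem prefix_comparable {a b c : List Bool} (h1 : a <+: c) (h2 : b <+: c) : a <+: b ∨ b <+: a :=
  List.prefix_or_prefix_of_prefix h1 h2

theorem Perp.mono {s s' t : List Bool} (h : Perp s t) (hs : s <+: s') : Perp s' t := by
  constructor
  · intro h1
    exact h.1 (hs.trans h1)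
  · intro h1
    rcases prefix_comparable hs h1 with h2 | h2
    · exact h.1 h2
    · exact h.2 h2

/-! ### Preconditions -/

/-- finite approximations `c i` of the Cohen reals; `(ξ, m, s) ∈ U` means that `[s] ⊆ U ξ m`;
`(ξ, n, i) ∈ E` means that `x i ∉ U ξ m` for all `m ≥ n` -/
structure Pre (I Λ : Type) where
  c : I → List Bool
  U : Set (Λ × ℕ × List Bool)
  E : Set (Λ × ℕ × I)

variable {I Λ : Type}

namespace Pre

/-- `q` is stronger than `p` -/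
def Le (q p : Pre I Λ) : Prop := (∀ i, p.c i <+: q.c i) ∧ p.U ⊆ q.U ∧ p.E ⊆ q.E

theorem Le.refl (p : Pre I Λ) : Le p p := ⟨fun _ => List.prefix_rfl, subset_rfl, subset_rfl⟩

theorem Le.trans {r q p : Pre I Λ} (h1 : Le r q) (h2 : Le q p) : Le r p :=
  ⟨fun i => (h2.1 i).trans (h1.1 i), h2.2.1.trans h1.2.1, h2.2.2.trans h1.2.2⟩

/-- finiteness -/
def Fin (p : Pre I Λ) : Prop := {i | p.c i ≠ []}.Finite ∧ p.U.Finite ∧ p.E.Finite

/-- the promises are kept -/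
def V1 (p : Pre I Λ) : Prop :=
  ∀ ξ m s n i, (ξ, m, s) ∈ p.U → (ξ, n, i) ∈ p.E → n ≤ m → Perp (p.c i) s

/-- the part of `p` with indices in `D` -/
def restrict (p : Pre I Λ) (D : Set Λ) : Pre I Λ :=
  ⟨p.c, {x | x ∈ p.U ∧ x.1 ∈ D}, {x | x ∈ p.E ∧ x.1 ∈ D}⟩

/-- the indices of `p` are in `D` -/
def Sup (p : Pre I Λ) (D : Set Λ) : Prop := (∀ x ∈ p.U, x.1 ∈ D) ∧ ∀ x ∈ p.E, x.1 ∈ D

theorem le_restrict (p : Pre I Λ) (D : Set Λ) : Le p (restrict p D) :=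
  ⟨fun _ => List.prefix_rfl, fun _ h => h.1, fun _ h => h.1⟩

theorem restrict_mono {q p : Pre I Λ} (h : Le q p) (D : Set Λ) :
    Le (restrict q D) (restrict p D) :=
  ⟨h.1, fun _ hx => ⟨h.2.1 hx.1, hx.2⟩, fun _ hx => ⟨h.2.2 hx.1, hx.2⟩⟩

theorem restrict_le_of_sup {q r : Pre I Λ} {D : Set Λ} (h : Le q r) (hr : Sup r D) :
    Le (restrict q D) r :=
  ⟨h.1, fun x hx => ⟨h.2.1 hx, hr.1 x hx⟩, fun x hx => ⟨h.2.2 hx, hr.2 x hx⟩⟩

theorem Fin.restrict {p : Pre I Λ} (h : Fin p) (D : Set Λ) : Fin (p.restrict D) :=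
  ⟨h.1, h.2.1.subset fun _ hx => hx.1, h.2.2.subset fun _ hx => hx.1⟩

theorem V1.restrict {p : Pre I Λ} (h : V1 p) (D : Set Λ) : V1 (p.restrict D) :=
  fun ξ m s n i h1 h2 hn => h ξ m s n i h1.1 h2.1 hn

/-- the union of `p` and `q`, with the stems of `q` -/
def join (q p : Pre I Λ) : Pre I Λ := ⟨q.c, q.U ∪ p.U, q.E ∪ p.E⟩

end Pre

open Pre

/-- the data of an iteration -/
structure Iter (I Λ : Type) where
  lt : Λ → Λ → Prop
  trans : ∀ a b c, lt a b → lt b c → lt a c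
  wf : WellFounded lt
  A : Λ → ℕ → I → Set (Pre I Λ)
  supp : ∀ ξ n i, ∀ r ∈ A ξ n i, Sup r {η | lt η ξ}

namespace Iter

variable (S : Iter I Λ)

/-- the indices below `ξ` -/
def below (ξ : Λ) : Set Λ := {η | S.lt η ξ}

theorem not_mem_below (ξ : Λ) : ξ ∉ S.below ξ := fun h => S.wf.asymmetric ξ ξ h h

/-- one step of the recursive definition of validity -/
def OKF (ξ : Λ) (ih : ∀ η, S.lt η ξ → Pre I Λ → Prop) (p : Pre I Λ) : Prop :=
  ∀ n i, (ξ, n, i) ∈ p.E → ∀ r ∈ S.A ξ n i, ∀ q : Pre I Λ, Pre.Fin q → V1 q → Sup q (S.below ξ) →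
    (∀ η (h : S.lt η ξ), ih η h q) → Le q (p.restrict (S.below ξ)) → ¬ Le q r

/-- the promises with index `ξ` made by `p` are forced to be allowed -/
noncomputable def OK : Λ → Pre I Λ → Prop := S.wf.fix S.OKF

theorem OK_eq (ξ : Λ) (p : Pre I Λ) : S.OK ξ p ↔
    ∀ n i, (ξ, n, i) ∈ p.E → ∀ r ∈ S.A ξ n i, ∀ q : Pre I Λ, Pre.Fin q → V1 q →
      Sup q (S.below ξ) → (∀ η, S.lt η ξ → S.OK η q) → Le q (p.restrict (S.below ξ)) →
        ¬ Le q r := by
  unfold OK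
  rw [S.wf.fix_eq]
  rfl

/-- the conditions -/
def Valid (p : Pre I Λ) : Prop := Pre.Fin p ∧ V1 p ∧ ∀ ξ, S.OK ξ p

variable {S}

theorem valid_of_sup {q : Pre I Λ} {ξ : Λ} (h1 : Pre.Fin q) (h2 : V1 q) (h3 : Sup q (S.below ξ))
    (h4 : ∀ η, S.lt η ξ → S.OK η q) : S.Valid q := by
  refine ⟨h1, h2, fun η => ?_⟩
  by_cases h : S.lt η ξ
  · exact h4 η h
  · rw [OK_eq]
    intro n i hE
    exact absurd (h3.2 _ hE) h

theorem OK_iff (ξ : Λ) (p : Pre I Λ) : S.OK ξ p ↔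
    ∀ n i, (ξ, n, i) ∈ p.E → ∀ r ∈ S.A ξ n i, ∀ q : Pre I Λ, S.Valid q →
      Sup q (S.below ξ) → Le q (p.restrict (S.below ξ)) → ¬ Le q r := by
  rw [OK_eq]
  constructor
  · intro h n i hE r hr q hq hs hle
    exact h n i hE r hr q hq.1 hq.2.1 hs (fun η _ => hq.2.2 η) hle
  · intro h n i hE r hr q h1 h2 h3 h4 hle
    exact h n i hE r hr q (valid_of_sup h1 h2 h3 h4) h3 hle

/-- promises which are made by weaker conditions remain allowed -/
theorem valid_of {r : Pre I Λ} (h1 : Pre.Fin r) (h2 : V1 r)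
    (h3 : ∀ x ∈ r.E, ∃ p, S.Valid p ∧ Le r p ∧ x ∈ p.E) : S.Valid r := by
  refine ⟨h1, h2, fun ξ => ?_⟩
  rw [OK_iff]
  intro n i hE a ha q hq hs hle
  obtain ⟨p, hp, hrp, hx⟩ := h3 _ hE
  exact (OK_iff ξ p).1 (hp.2.2 ξ) n i hx a ha q hq hs (hle.trans (restrict_mono hrp _))

theorem valid_restrict {p : Pre I Λ} (hp : S.Valid p) (ξ : Λ) :
    S.Valid (p.restrict (S.below ξ)) := by
  refine ⟨hp.1.restrict _, hp.2.1.restrict _, fun η => ?_⟩
  rw [OK_iff]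
  intro n i hE a ha q hq hs hle
  refine (OK_iff η p).1 (hp.2.2 η) n i hE.1 a ha q hq hs (hle.trans ?_)
  refine ⟨fun _ => List.prefix_rfl, fun x hx => ⟨⟨hx.1, ?_⟩, hx.2⟩, fun x hx => ⟨⟨hx.1, ?_⟩, hx.2⟩⟩
  · exact S.trans _ _ _ hx.2 hE.2
  · exact S.trans _ _ _ hx.2 hE.2

/-- a promise which was made is kept -/
theorem commit {p q : Pre I Λ} (hp : S.Valid p) (hq : S.Valid q) (hle : Le q p) {ξ : Λ} {n : ℕ}
    {i : I} (hE : (ξ, n, i) ∈ p.E) {a : Pre I Λ} (ha : a ∈ S.A ξ n i) : ¬ Le q a := by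
  intro h
  exact (OK_iff ξ p).1 (hp.2.2 ξ) n i hE a ha _ (valid_restrict hq ξ)
    ⟨fun x hx => hx.2, fun x hx => hx.2⟩ (restrict_mono hle _)
    (restrict_le_of_sup h (S.supp ξ n i a ha))

theorem valid_join {p q : Pre I Λ} (hp : S.Valid p) (hq : S.Valid q) {ξ : Λ}
    (hs : Sup q (S.below ξ)) (hle : Le q (p.restrict (S.below ξ))) :
    S.Valid (q.join p) ∧ Le (q.join p) p ∧ Le (q.join p) q := by
  have h1 : Le (q.join p) p := ⟨hle.1, Set.subset_union_right, Set.subset_union_right⟩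
  have h2 : Le (q.join p) q :=
    ⟨fun _ => List.prefix_rfl, Set.subset_union_left, Set.subset_union_left⟩
  refine ⟨valid_of ⟨hq.1.1, hq.1.2.1.union hp.1.2.1, hq.1.2.2.union hp.1.2.2⟩ ?_ ?_, h1, h2⟩
  · intro η m s n i hU hE hnm
    rcases hU with hU | hU <;> rcases hE with hE | hE
    · exact hq.2.1 η m s n i hU hE hnm
    · exact hq.2.1 η m s n i hU (hle.2.2 ⟨hE, hs.1 _ hU⟩) hnm
    · exact hq.2.1 η m s n i (hle.2.1 ⟨hU, hs.2 _ hE⟩) hE hnm
    · exact (hp.2.1 η m s n i hU hE hnm).mono (hle.1 i)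
  · rintro x (hx | hx)
    · exact ⟨q, hq, h2, hx⟩
    · exact ⟨p, hp, h1, hx⟩

/-- making a promise -/
theorem valid_addE {p : Pre I Λ} (hp : S.Valid p) {ξ : Λ} {n : ℕ} {i : I}
    (hA : ∀ a ∈ S.A ξ n i, ∀ q, S.Valid q → Le q p → ¬ Le q a)
    (hU : ∀ m s, (ξ, m, s) ∈ p.U → n ≤ m → Perp (p.c i) s) :
    S.Valid ⟨p.c, p.U, insert (ξ, n, i) p.E⟩ := by
  refine ⟨⟨hp.1.1, hp.1.2.1, hp.1.2.2.insert _⟩, ?_, ?_⟩
  · intro η m s n' i' h1 h2 hnm
    rcases h2 with h2 | h2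
    · simp only [Prod.mk.injEq] at h2
      obtain ⟨rfl, rfl, rfl⟩ := h2
      exact hU m s h1 hnm
    · exact hp.2.1 η m s n' i' h1 h2 hnm
  · intro η
    rw [OK_iff]
    intro n' i' hE a ha q hq hs hle
    have hle' : Le q (p.restrict (S.below η)) :=
      ⟨hle.1, hle.2.1, fun x hx => hle.2.2 ⟨Or.inr hx.1, hx.2⟩⟩
    rcases hE with hE | hE
    · simp only [Prod.mk.injEq] at hE
      obtain ⟨rfl, rfl, rfl⟩ := hE
      obtain ⟨h1, h2, h3⟩ := valid_join hp hq hs hle'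
      intro h4
      exact hA a ha _ h1 h2 (h3.trans h4)
    · exact (OK_iff η p).1 (hp.2.2 η) n' i' hE a ha q hq hs hle'

/-- adding an open set -/
theorem valid_addU {p : Pre I Λ} (hp : S.Valid p) {ξ : Λ} {m : ℕ} {s : List Bool}
    (hU : ∀ n i, (ξ, n, i) ∈ p.E → n ≤ m → Perp (p.c i) s) :
    S.Valid ⟨p.c, insert (ξ, m, s) p.U, p.E⟩ := by
  refine valid_of ⟨hp.1.1, hp.1.2.1.insert _, hp.1.2.2⟩ ?_ ?_
  · intro η m' s' n i h1 h2 hnm
    rcases h1 with h1 | h1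
    · simp only [Prod.mk.injEq] at h1
      obtain ⟨rfl, rfl, rfl⟩ := h1
      exact hU n i h2 hnm
    · exact hp.2.1 η m' s' n i h1 h2 hnm
  · intro x hx
    exact ⟨p, hp, ⟨fun _ => List.prefix_rfl, Set.subset_insert _ _, subset_rfl⟩, hx⟩

/-- extending the stems -/
theorem valid_ext {p : Pre I Λ} (hp : S.Valid p) {c' : I → List Bool}
    (h1 : {i | c' i ≠ []}.Finite) (h2 : ∀ i, p.c i <+: c' i) :
    S.Valid ⟨c', p.U, p.E⟩ := by
  refine valid_of ⟨h1, hp.1.2.1, hp.1.2.2⟩ ?_ ?_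
  · intro η m' s' n i h3 h4 hnm
    exact (hp.2.1 η m' s' n i h3 h4 hnm).mono (h2 i)
  · intro x hx
    exact ⟨p, hp, ⟨h2, subset_rfl, subset_rfl⟩, hx⟩

theorem valid_empty : S.Valid ⟨fun _ => [], ∅, ∅⟩ := by
  refine ⟨⟨by simp, Set.finite_empty, Set.finite_empty⟩, ?_, ?_⟩
  · intro η m s n i h
    exact absurd h (Set.notMem_empty _)
  · intro ξ
    rw [OK_iff]
    intro n i h
    exact absurd h (Set.notMem_empty _)

variable (S)

/-- the forcing notion -/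
def Cond : Type := {p : Pre I Λ // S.Valid p}

instance : Preorder S.Cond where
  le q p := Le q.1 p.1
  le_refl p := Le.refl p.1
  le_trans _ _ _ h1 h2 := h1.trans h2

variable {S}

theorem le_def {q p : S.Cond} : q ≤ p ↔ Le q.1 p.1 := Iff.rfl

end Iter

end Pool.Agent.K4H97.DS
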