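import Pool.Agent.Helper669.Forcing

/-!
# Δ-sets of reals in forcing extensions

A name for an element of `2^ω` is a name `x : ℕ → Bool → Set P` for a function from `ℕ` to `Bool`.
-/

set_option autoImplicit false

namespace Pool.Agent.K4H97.DS

open Pool.Agent.Helper669.Forcing

section

variable {P : Type} [Preorder P]

/-- The finite sequence `s` is an initial segment of the element of `2^ω` named by `x`. -/
def Init (s : List Bool) (x : ℕ → Bool → Set P) : Set P :=
  fall fun k : ℕ => fall fun h : k < s.length => meets (x k s[k])

/-- `V` names a set of finite sequences; the open subset `⋃ {[s] : s ∈ V}` of `2^ω` contains the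
element named by `x`. -/
def InOpen (x : ℕ → Bool → Set P) (V : List Bool → Set P) : Set P :=
  fex fun s => fand (Init s x) (meets (V s))

/-- `V` names a set of pairs of finite sequences; the open subset `⋃ {[s] × [t] : (s, t) ∈ V}` of
`2^ω × 2^ω` contains the pair of the elements named by `x` and `y`. -/
def InOpen2 (x y : ℕ → Bool → Set P) (V : List Bool → List Bool → Set P) : Set P :=
  fex fun s => fex fun t => fand (fand (Init s x) (Init t y)) (meets (V s t))

/-- The elements of `2^ω` named by `x` and `y` are equal. -/
def SamePoint (x y : ℕ → Bool → Set P) : Set P :=
  fall fun n => fall fun a => fall fun b =>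
    fimp (fand (meets (x n a)) (meets (y n b))) (fground (a = b))

/-- The set `{x i : i ∈ I}` is a Q-set: every subset `{x i : i ∈ B}` of it is the intersection of
the set with a countable intersection of open sets `V n`. -/
def IsQSet {I : Type} (x : I → ℕ → Bool → Set P) : Set P :=
  fall fun B : I → Set P => fex fun V : ℕ → List Bool → Set P => fall fun i =>
    fand (fimp (meets (B i)) (fall fun n => InOpen (x i) (V n)))
      (fimp (fall fun n => InOpen (x i) (V n)) (meets (B i)))

/-- The set `{x i : i ∈ I}` is a Δ-set: for every function `R` from `I` to `ℕ`, i.e. for every
partition of the set into the pieces `{x i : R i = n}`, there are open sets `V n` such that the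
piece with number `n` is contained in `V n` and such that every `x i` belongs to only finitely
many of the sets `V n`. -/
def IsDeltaSet {I : Type} (x : I → ℕ → Bool → Set P) : Set P :=
  fall fun R : I → ℕ → Set P => fimp (IsFun R)
    (fex fun V : ℕ → List Bool → Set P =>
      fand (fall fun i => fall fun n => fimp (meets (R i n)) (InOpen (x i) (V n)))
        (fall fun i => fex fun m : ℕ => fall fun n : ℕ => fall fun _ : m ≤ n =>
          fnot (InOpen (x i) (V n))))

/-- The square `{(x i, x j) : i, j ∈ I}` is a Δ-set: for every function `R` from `I × I` to `ℕ`,
i.e. for every partition of the square into the pieces `{(x i, x j) : R (i, j) = n}`, there are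
open subsets `V n` of `2^ω × 2^ω` such that the piece with number `n` is contained in `V n` and
such that every pair `(x i, x j)` belongs to only finitely many of the sets `V n`. -/
def SquareIsDeltaSet {I : Type} (x : I → ℕ → Bool → Set P) : Set P :=
  fall fun R : I × I → ℕ → Set P => fimp (IsFun R)
    (fex fun V : ℕ → List Bool → List Bool → Set P =>
      fand (fall fun i => fall fun j => fall fun n =>
          fimp (meets (R (i, j) n)) (InOpen2 (x i) (x j) (V n)))
        (fall fun i => fall fun j => fex fun m : ℕ => fall fun n : ℕ => fall fun _ : m ≤ n =>
          fnot (InOpen2 (x i) (x j) (V n))))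

end

/-- There is a set `{x i : i ∈ I}` of reals (the `x i` are different elements of `2^ω`), indexed by
a ground model set `I`, which is a Δ-set, and even a Q-set, but whose square is not a Δ-set. -/
def DeltaSetWithBadSquare (P : Type) [Preorder P] : Set P :=
  fex fun I : Type => fex fun x : I → ℕ → Bool → Set P =>
    fand (fall fun i => IsFun (x i))
      (fand (fall fun i => fall fun j => fall fun _ : i ≠ j => fnot (SamePoint (x i) (x j)))
        (fand (fand (IsDeltaSet x) (IsQSet x)) (fnot (SquareIsDeltaSet x))))

end Pool.Agent.K4H97.DS
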