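import Pool.Agent.K4H97.DS.Uni
import Pool.Agent.K4H97.DS.Defs

/-!
# The Cohen reals form a Δ-set whose square is not a Δ-set
-/

set_option autoImplicit false

namespace Pool.Agent.K4H97.DS

open Pre Pool.Agent.Helper669.Forcing

variable {I Λ : Type} {S : Iter I Λ}

theorem prefix_getElem? {a b : List Bool} (h : a <+: b) {k : ℕ} (hk : k < a.length) :
    b[k]? = a[k]? := by
  obtain ⟨t, rfl⟩ := h
  exact List.getElem?_append_left hk

/-- the name of the Cohen real `x i` -/
def X (S : Iter I Λ) (i : I) (k : ℕ) (b : Bool) : Set S.Cond := {p | (p.1.c i)[k]? = some b}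

/-- the name of the open set `U ξ n` -/
def W (S : Iter I Λ) (ξ : Λ) (n : ℕ) (s : List Bool) : Set S.Cond := {p | (ξ, n, s) ∈ p.1.U}

theorem down_X (i : I) (k : ℕ) (b : Bool) : Down (X S i k b) := by
  intro p hp q hq
  have hk : k < (p.1.c i).length := by
    by_contra h
    have h1 : (p.1.c i)[k]? = none := List.getElem?_eq_none (not_lt.1 h)
    have h2 : (p.1.c i)[k]? = some b := hp
    rw [h1] at h2
    exact absurd h2 (by simp)
  show (q.1.c i)[k]? = some b
  rw [prefix_getElem? (hq.1 i) hk]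
  exact hp

theorem down_W (ξ : Λ) (n : ℕ) (s : List Bool) : Down (W S ξ n s) := by
  intro p hp q hq
  exact hq.2.1 hp

theorem meets_X {p : S.Cond} {i : I} {k : ℕ} {b : Bool} (h : p ∈ meets (X S i k b))
    (hk : k < (p.1.c i).length) : (p.1.c i)[k]? = some b := by
  obtain ⟨r, hr, hb⟩ := exists_of_meets (down_X i k b) h
  rw [← prefix_getElem? (hr.1 i) hk]
  exact hb

theorem prefix_of_init {p : S.Cond} {i : I} {s : List Bool} (h : p ∈ Init s (X S i))
    (hl : s.length ≤ (p.1.c i).length) : s <+: p.1.c i := by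
  rw [List.prefix_iff_getElem?]
  intro k hk
  rw [meets_X (h k hk) (lt_of_lt_of_le hk hl)]

theorem init_of_prefix {p : S.Cond} {i : I} {s : List Bool} (h : s <+: p.1.c i) :
    p ∈ Init s (X S i) := by
  intro k hk
  apply meets_of_mem
  show (p.1.c i)[k]? = some s[k]
  rw [prefix_getElem? h hk]
  simp [hk]

theorem down_Init (s : List Bool) (i : I) : Down (Init s (X S i)) :=
  down_fall fun _ => down_fall fun _ => down_meets _

/-- extending one stem -/
theorem exists_ext (p : S.Cond) (i : I) (t : List Bool) (h : p.1.c i <+: t) :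
    ∃ q : S.Cond, q ≤ p ∧ q.1.c i = t ∧ (∀ j, j ≠ i → q.1.c j = p.1.c j) ∧ q.1.U = p.1.U ∧
      q.1.E = p.1.E := by
  classical
  have h1 : ∀ j, p.1.c j <+: Function.update p.1.c i t j := by
    intro j
    by_cases hj : j = i
    · subst hj; simpa using h
    · rw [Function.update_of_ne hj]
  refine ⟨⟨⟨Function.update p.1.c i t, p.1.U, p.1.E⟩, Iter.valid_ext p.2 ?_ h1⟩,
    ⟨h1, subset_rfl, subset_rfl⟩, by simp, ?_, rfl, rfl⟩
  · refine (p.2.1.1.insert i).subset ?_
    intro j hj
    by_cases hji : j = i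
    · exact Or.inl hji
    · right
      have h2 : Function.update p.1.c i t j ≠ [] := hj
      rwa [Function.update_of_ne hji] at h2
  · intro j hj
    exact Function.update_of_ne hj _ _

theorem exists_long (p : S.Cond) (i : I) (L : ℕ) : ∃ q : S.Cond, q ≤ p ∧
    L ≤ (q.1.c i).length := by
  obtain ⟨q, h1, h2, -⟩ := exists_ext p i (p.1.c i ++ List.replicate L false)
    (List.prefix_append _ _)
  refine ⟨q, h1, ?_⟩
  rw [h2]
  simp

theorem isFun_X (i : I) (p : S.Cond) : p ∈ IsFun (X S i) := by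
  constructor
  · intro k
    rw [mem_fex]
    intro q _
    obtain ⟨r, hr, hl⟩ := exists_long q i (k + 1)
    refine ⟨r, hr, (r.1.c i)[k], meets_of_mem ?_⟩
    show (r.1.c i)[k]? = _
    exact List.getElem?_eq_getElem _
  · intro k b b'
    rw [mem_fimp]
    rintro q _ ⟨h1, h2⟩
    refine ⟨q, le_rfl, ?_⟩
    obtain ⟨r, hr, hl⟩ := exists_long q i (k + 1)
    have h3 := meets_X (down_meets _ _ h1 _ hr) (lt_of_lt_of_le (Nat.lt_succ_self k) hl)
    have h4 := meets_X (down_meets _ _ h2 _ hr) (lt_of_lt_of_le (Nat.lt_succ_self k) hl)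
    rw [h3] at h4
    exact Option.some_injective _ h4

theorem not_same (i j : I) (hij : i ≠ j) (p : S.Cond) : p ∈ fnot (SamePoint (X S i) (X S j)) := by
  intro q _ hq
  set k := max (q.1.c i).length (q.1.c j).length with hk
  obtain ⟨r, hr, hri, hrj, -⟩ := exists_ext q i
    (q.1.c i ++ List.replicate (k + 1) false) (List.prefix_append _ _)
  obtain ⟨r', hr', hrj', hri', -⟩ := exists_ext r j
    (r.1.c j ++ List.replicate (k + 1) true) (List.prefix_append _ _)
  have e1 : (r'.1.c i)[k]? = some false := by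
    rw [hri' i hij, hri, List.getElem?_append_right (le_max_left _ _)]
    rw [List.getElem?_replicate]
    rw [if_pos (by omega)]
  have e2 : (r'.1.c j)[k]? = some true := by
    rw [hrj', hrj j hij.symm, List.getElem?_append_right (le_max_right _ _)]
    rw [List.getElem?_replicate]
    rw [if_pos (by omega)]
  obtain ⟨_, _, h⟩ := mem_fimp.1 (hq k false true) r' (hr'.trans hr)
    ⟨meets_of_mem e1, meets_of_mem e2⟩
  exact Bool.false_ne_true h

/-! ### The Cohen reals form a Δ-set -/

/-- `A` runs through all families of countable sets of preconditions -/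
def Universal (S : Iter I Λ) : Prop :=
  ∀ N : ℕ → I → Set (Pre I Λ), (∀ n i, (N n i).Countable) →
    (∀ n i, ∀ r ∈ N n i, Pre.Fin r) → ∃ ξ, ∀ n i, S.A ξ n i = N n i

theorem exists_perp (B : Finset I) (p : S.Cond) (i : I) (hi : i ∉ B) :
    ∃ q : S.Cond, q ≤ p ∧ q.1.U = p.1.U ∧ q.1.E = p.1.E ∧ ∀ j ∈ B, Perp (q.1.c j) (q.1.c i) := by
  classical
  obtain ⟨L, hL⟩ : ∃ L, ∀ j ∈ B, (p.1.c j).length < L := by
    refine ⟨(∑ j ∈ B, (p.1.c j).length) + 1, fun j hj => Nat.lt_succ_of_le ?_⟩
    exact Finset.single_le_sum (f := fun j => (p.1.c j).length) (fun _ _ => Nat.zero_le _) hj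
  let s : List Bool := p.1.c i ++ List.replicate L false
  have hs : L ≤ s.length := by simp [s]
  let c' : I → List Bool := fun j => if j = i then s else
    if j ∈ B then (if p.1.c j <+: s then p.1.c j ++ [!(s.getD (p.1.c j).length false)] else p.1.c j)
    else p.1.c j
  have hc'i : c' i = s := if_pos rfl
  have hc' : ∀ j, p.1.c j <+: c' j := by
    intro j
    simp only [c']
    split_ifs with h1 h2 h3
    · subst h1; exact List.prefix_append _ _
    · exact List.prefix_append _ _
    · exact List.prefix_rfl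
    · exact List.prefix_rfl
  refine ⟨⟨⟨c', p.1.U, p.1.E⟩, Iter.valid_ext p.2 ?_ hc'⟩, ⟨hc', subset_rfl, subset_rfl⟩, rfl,
    rfl, ?_⟩
  · refine ((p.2.1.1.union B.finite_toSet).insert i).subset ?_
    intro j hj
    by_cases h1 : j = i
    · exact Or.inl h1
    · by_cases h2 : j ∈ B
      · exact Or.inr (Or.inr h2)
      · right; left
        have h3 : c' j ≠ [] := hj
        simp only [c', if_neg h1, if_neg h2] at h3
        exact h3
  · intro j hj
    have hji : j ≠ i := fun h => hi (h ▸ hj)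
    show Perp (c' j) (c' i)
    rw [hc'i]
    simp only [c', if_neg hji, if_pos hj]
    have hlt := hL j hj
    split_ifs with h3
    · have hk : (p.1.c j).length < s.length := lt_of_lt_of_le hlt hs
      have key : ∀ t : List Bool, t <+: s → t <+: p.1.c j ++ [!(s.getD (p.1.c j).length false)] →
          t.length ≤ (p.1.c j).length := by
        intro t h1 h2
        by_contra h4
        have h5 : (p.1.c j).length < t.length := not_le.1 h4
        have h6 := prefix_getElem? h1 h5
        have h7 := prefix_getElem? h2 h5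
        rw [← h6, List.getElem?_append_right le_rfl] at h7
        simp only [Nat.sub_self, List.getElem?_cons_zero] at h7
        rw [List.getD_eq_getElem?_getD, ← h7] at h7
        simp at h7
      constructor
      · intro h4
        have := key _ h4 List.prefix_rfl
        simp at this
      · intro h4
        have := key _ List.prefix_rfl h4
        omega
    · constructor
      · exact h3
      · intro h4
        have := h4.length_le
        omega

/-- a promise keeps `x i` out of the open sets -/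
theorem promise {q : S.Cond} {ξ : Λ} {m n : ℕ} {i : I} (hE : (ξ, m, i) ∈ q.1.E) (hn : m ≤ n) :
    q ∈ fnot (InOpen (X S i) (W S ξ n)) := by
  intro r hr hin
  obtain ⟨r1, hr1, s, hs, hWs⟩ := mem_fex.1 hin r le_rfl
  obtain ⟨r2, hr2, hW⟩ := exists_of_meets (down_W ξ n s) hWs
  obtain ⟨r3, hr3, hl⟩ := exists_long r2 i s.length
  have h5 : s <+: r3.1.c i :=
    prefix_of_init (down_Init s i r1 hs r3 (hr3.trans hr2)) hl
  have h6 : (ξ, n, s) ∈ r3.1.U := hr3.2.1 hW
  have h7 : (ξ, m, i) ∈ r3.1.E := by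
    apply hr3.2.2
    apply hr2.2.2
    apply hr1.2.2
    apply hr.2.2
    exact hE
  exact (r3.2.2.1 ξ n s m i h6 h7 hn).2 h5

/-- without a promise, `x i` can be put into the open set -/
theorem open_dense (q : S.Cond) {ξ : Λ} {n : ℕ} {i : I}
    (h : ∀ n', (ξ, n', i) ∈ q.1.E → ¬ n' ≤ n) :
    ∃ r ≤ q, r ∈ InOpen (X S i) (W S ξ n) := by
  classical
  let B : Finset I := (q.2.1.2.2.toFinset.filter (fun x => x.1 = ξ ∧ x.2.1 ≤ n)).image
    (fun x => x.2.2)
  have hB : ∀ j n', (ξ, n', j) ∈ q.1.E → n' ≤ n → j ∈ B := by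
    intro j n' hE hn
    simp only [B, Finset.mem_image, Finset.mem_filter, Set.Finite.mem_toFinset]
    exact ⟨(ξ, n', j), ⟨hE, rfl, hn⟩, rfl⟩
  have hi : i ∉ B := by
    intro h'
    simp only [B, Finset.mem_image, Finset.mem_filter, Set.Finite.mem_toFinset] at h'
    obtain ⟨⟨η, n', j⟩, ⟨hE, h1, h2⟩, h3⟩ := h'
    simp only at h1 h2 h3
    subst h1 h3
    exact h n' hE h2
  obtain ⟨q1, h1, h2, h3, h4⟩ := exists_perp B q i hi
  have hv := Iter.valid_addU (ξ := ξ) (m := n) (s := q1.1.c i) q1.2 (by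
    intro n' j hE hn
    rw [h3] at hE
    exact h4 j (hB j n' hE hn))
  refine ⟨⟨_, hv⟩, le_trans (b := q1) ?_ h1, ?_⟩
  · exact ⟨fun _ => List.prefix_rfl, Set.subset_insert _ _, subset_rfl⟩
  · refine mem_fex_of_mem (q1.1.c i) (down_fand (down_Init _ _) (down_meets _)) ⟨?_, ?_⟩
    · exact init_of_prefix List.prefix_rfl
    · exact meets_of_mem (Set.mem_insert _ _)

/-- making a promise, when this is allowed -/
theorem exists_promise (q : S.Cond) {ξ : Λ} {i : I} (k : ℕ)
    (h : ∀ m, k < m → ∀ a ∈ S.A ξ m i, ∀ r : S.Cond, r ≤ q → ¬ Le r.1 a) :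
    ∃ r ≤ q, ∃ m, (ξ, m, i) ∈ r.1.E := by
  obtain ⟨m, hm1, hm2⟩ : ∃ m, k < m ∧ ∀ m' s, (ξ, m', s) ∈ q.1.U → m' < m := by
    refine ⟨k + (∑ x ∈ q.2.1.2.1.toFinset, x.2.1) + 1, by omega, ?_⟩
    intro m' s h
    have h5 : m' ≤ ∑ x ∈ q.2.1.2.1.toFinset, x.2.1 :=
      Finset.single_le_sum (f := fun x : Λ × ℕ × List Bool => x.2.1)
        (fun _ _ => Nat.zero_le _) ((Set.Finite.mem_toFinset _).2 h)
    omega
  have hv := Iter.valid_addE (ξ := ξ) (n := m) (i := i) q.2
    (fun a ha r hr hrq hra => h m hm1 a ha ⟨r, hr⟩ hrq hra) (by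
    intro m' s h hmm
    have := hm2 m' s h
    omega)
  exact ⟨⟨_, hv⟩, ⟨fun _ => List.prefix_rfl, subset_rfl, Set.subset_insert _ _⟩, m,
    Set.mem_insert _ _⟩

theorem isDelta (hS : Universal S) (p0 : S.Cond) : p0 ∈ IsDeltaSet (X S) := by
  intro R
  rw [mem_fimp]
  intro p hp hR
  refine ⟨p, le_rfl, ?_⟩
  -- the conditions which force `R i ≥ n`
  let N : ℕ → I → Set S.Cond := fun n i => {q | ∃ m, n ≤ m ∧ q ∈ meets (R i m)}
  choose C hC1 hC2 hC3 using fun n i => exists_countable_predense (N n i)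
  obtain ⟨ξ, hξ⟩ := hS (fun n i => Subtype.val '' C n i) (fun n i => (hC2 n i).image _)
    (by rintro n i _ ⟨c, _, rfl⟩; exact c.2.1)
  refine mem_fex_of_mem (fun n s => W S ξ n s) ?_ ⟨?_, ?_⟩
  · exact down_fand (down_fall fun _ => down_fall fun _ => down_fimp _ _)
      (down_fall fun _ => down_fex _)
  · intro i n
    rw [mem_fimp]
    intro q hq hRq
    apply open_dense
    intro n' hE hm
    obtain ⟨c, hc, r, hrq, hrc⟩ := hC3 n' i q ⟨n, hm, hRq⟩
    refine Iter.commit q.2 r.2 hrq hE (a := c.1) ?_ hrc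
    rw [hξ]
    exact ⟨c, hc, rfl⟩
  · intro i
    rw [mem_fex]
    intro q hq
    obtain ⟨q1, hq1, k, hk⟩ := IsFun.total (down_IsFun R p hR q hq) i
    obtain ⟨r, hr, m, hE⟩ := exists_promise q1 (ξ := ξ) (i := i) k (by
      intro m hm a ha r hrq hra
      rw [hξ] at ha
      obtain ⟨c, hc, rfl⟩ := ha
      obtain ⟨m', hm', hc'⟩ := hC1 m i hc
      have h5 : r ∈ meets (R i m') := down_meets _ _ hc' r hra
      have h6 : r ∈ meets (R i k) := down_meets _ _ hk r hrq
      have h7 : r ∈ IsFun R := down_IsFun R p hR r (hrq.trans (hq1.trans hq))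
      have h8 := IsFun.unique h7 h5 h6
      omega)
    exact ⟨r, hr.trans hq1, m, fun n hn => promise hE hn⟩

theorem isQ (hS : Universal S) (p0 : S.Cond) : p0 ∈ IsQSet (X S) := by
  intro B
  choose C hC1 hC2 hC3 using fun i => exists_countable_predense (meets (B i) : Set S.Cond)
  obtain ⟨ξ, hξ⟩ := hS (fun _ i => Subtype.val '' C i) (fun _ i => (hC2 i).image _)
    (by rintro _ i _ ⟨c, _, rfl⟩; exact c.2.1)
  refine mem_fex_of_mem (fun n s => W S ξ n s) ?_ (fun i => ⟨?_, ?_⟩)
  · exact down_fall fun _ => down_fand (down_fimp _ _) (down_fimp _ _)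
  · rw [mem_fimp]
    intro q hq hBq
    refine ⟨q, le_rfl, fun n => ?_⟩
    show q ∈ fex _
    rw [mem_fex]
    intro q' hq'
    obtain ⟨r, hr, hin⟩ := open_dense q' (ξ := ξ) (n := n) (i := i) (by
      intro n' hE _
      obtain ⟨c, hc, r, hrq, hrc⟩ := hC3 i q' (down_meets _ _ hBq q' hq')
      refine Iter.commit q'.2 r.2 hrq hE (a := c.1) ?_ hrc
      rw [hξ]
      exact ⟨c, hc, rfl⟩)
    obtain ⟨r', hr', s, hs⟩ := mem_fex.1 hin r le_rfl
    exact ⟨r', hr'.trans hr, s, hs⟩
  · rw [mem_fimp]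
    intro q hq hall
    by_contra hcon
    push Not at hcon
    obtain ⟨r, hr, m, hE⟩ := exists_promise q (ξ := ξ) (i := i) 0 (by
      intro m _ a ha r hrq hra
      rw [hξ] at ha
      obtain ⟨c, hc, rfl⟩ := ha
      exact hcon r hrq (down_meets _ _ (hC1 i hc) r hra))
    exact promise hE le_rfl r le_rfl (down_fex _ q (hall m) r hr)

end Pool.Agent.K4H97.DS
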