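import Pool.Agent.K4H97.DS.Main

/-!
# The square is not a Δ-set
-/

set_option autoImplicit false

namespace Pool.Agent.K4H97.DS

open Pre Pool.Agent.Helper669.Forcing

variable {Λ : Type}

/-- the index set of the Cohen reals -/
abbrev II : Type := (ℕ → Bool) × Bool

open Classical in
/-- the first difference of two ground model reals -/
noncomputable def dd (a b : ℕ → Bool) : ℕ := if h : ∃ n, a n ≠ b n then Nat.find h else 0

theorem le_dd {a b : ℕ → Bool} (hab : a ≠ b) {m : ℕ} (h : ∀ k < m, a k = b k) : m ≤ dd a b := by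
  classical
  have h1 : ∃ n, a n ≠ b n := by
    by_contra hcon
    push Not at hcon
    exact hab (funext hcon)
  unfold dd
  rw [dif_pos h1]
  by_contra hlt
  exact Nat.find_spec h1 (h _ (not_le.1 hlt))

theorem not_countable_univ : ¬ (Set.univ : Set (ℕ → Bool)).Countable := by
  intro h
  have h1 := Cardinal.mk_le_aleph0_iff.2 (Set.countable_univ_iff.1 h)
  have h2 : Cardinal.mk (ℕ → Bool) = Cardinal.continuum := by
    rw [← Cardinal.two_power_aleph0]
    simp
  rw [h2] at h1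
  exact absurd Cardinal.aleph0_lt_continuum (not_lt.2 h1)

variable {S : Iter II Λ}

theorem not_square (p0 : S.Cond) : p0 ∈ fnot (SquareIsDeltaSet (X S)) := by
  classical
  intro p _ hsq
  let R : II × II → ℕ → Set S.Cond := fun z n => fground (dd z.1.1 z.2.1 = n)
  have hdR : ∀ z n, Down (R z n) := fun z n => down_fground _
  have hR : p ∈ IsFun R := by
    constructor
    · intro z
      rw [mem_fex]
      intro q _
      exact ⟨q, le_rfl, _, meets_of_mem (show dd z.1.1 z.2.1 = _ from rfl)⟩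
    · intro z n n'
      rw [mem_fimp]
      rintro q _ ⟨h1, h2⟩
      obtain ⟨_, _, h3⟩ := exists_of_meets (hdR z n) h1
      obtain ⟨_, _, h4⟩ := exists_of_meets (hdR z n') h2
      exact ⟨q, le_rfl, (show dd z.1.1 z.2.1 = n from h3).symm.trans h4⟩
  obtain ⟨q, hq, hV⟩ := mem_fimp.1 (hsq R) p le_rfl hR
  obtain ⟨ps, hps, V, hV1, hV2⟩ := mem_fex.1 hV q le_rfl
  -- the conditions `p a`
  have hex : ∀ a : ℕ → Bool, ∃ (pa : S.Cond) (m : ℕ), pa ≤ ps ∧ ∀ n, m ≤ n →
      pa ∈ fnot (InOpen2 (X S (a, false)) (X S (a, true)) (V n)) := by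
    intro a
    obtain ⟨pa, h1, m, h2⟩ := mem_fex.1 (hV2 (a, false) (a, true)) ps le_rfl
    exact ⟨pa, m, h1, h2⟩
  choose pa m hpa1 hpa2 using hex
  obtain ⟨J', Rt, F, φ, -, hJ', hu, hG, hext⟩ := exists_uniform (fun a => (pa a).1)
    (fun a => (pa a).2.1) (fun a => {(a, false), (a, true)}) (C := ℕ × ℕ × ℕ)
    (fun φ a => (m a, φ a (Sum.inl (a, false)), φ a (Sum.inl (a, true)))) Set.univ
    not_countable_univ
  have hGf : ∀ a : ℕ → Bool, Sum.inl (a, false) ∈ F a := fun a => hG a _ (by simp)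
  have hGt : ∀ a : ℕ → Bool, Sum.inl (a, true) ∈ F a := fun a => hG a _ (by simp)
  have hem : ∀ a ∈ J', ∀ b ∈ J', m a = m b := fun a ha b hb => congrArg (fun c => c.1) (hext a ha b hb)
  have hef : ∀ a ∈ J', ∀ b ∈ J', φ a (Sum.inl (a, false)) = φ b (Sum.inl (b, false)) :=
    fun a ha b hb => congrArg (fun c => c.2.1) (hext a ha b hb)
  have het : ∀ a ∈ J', ∀ b ∈ J', φ a (Sum.inl (a, true)) = φ b (Sum.inl (b, true)) :=
    fun a ha b hb => congrArg (fun c => c.2.2) (hext a ha b hb)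
  have hpv : ∀ a, S.Valid (pa a).1 := fun a => (pa a).2
  -- two members of `J'` with a large first difference
  obtain ⟨a, ha, b, hb, hab, hdd⟩ : ∃ a ∈ J', ∃ b ∈ J', a ≠ b ∧ m a ≤ dd a b := by
    obtain ⟨a0, ha0⟩ : J'.Nonempty := by
      by_contra h
      rw [Set.not_nonempty_iff_eq_empty] at h
      exact hJ' (h ▸ Set.countable_empty)
    obtain ⟨c, hc⟩ := Pool.Agent.Helper126.uncountable_fiber
      (fun (a : ℕ → Bool) (k : Fin (m a0)) => a k) J' hJ'
    obtain ⟨a, ha, b, hb, hab⟩ : ∃ a ∈ {i ∈ J' | (fun k : Fin (m a0) => i k) = c},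
        ∃ b ∈ {i ∈ J' | (fun k : Fin (m a0) => i k) = c}, a ≠ b := by
      by_contra h
      push Not at h
      exact hc (Set.Subsingleton.countable (fun a ha b hb => h a ha b hb))
    refine ⟨a, ha.1, b, hb.1, hab, ?_⟩
    rw [hem a ha.1 a0 ha0]
    apply le_dd hab
    intro k hk
    have h1 := congrFun (ha.2.trans hb.2.symm) ⟨k, hk⟩
    exact h1
  set n := dd a b with hn
  obtain ⟨q0, hq0v, hq0a, hq0b⟩ := compat hpv hu ha hb
  obtain ⟨q0', rfl⟩ : ∃ q0' : S.Cond, q0'.1 = q0 := ⟨⟨q0, hq0v⟩, rfl⟩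
  have hle0 : q0' ≤ pa a := hq0a
  have hle0b : q0' ≤ pa b := hq0b
  obtain ⟨q2, hq2, hin⟩ := mem_fimp.1 (hV1 (a, false) (b, true) n) q0' (hle0.trans (hpa1 a))
    (meets_of_mem (show dd a b = n from rfl))
  obtain ⟨q3, hq3, s, h3⟩ := mem_fex.1 hin q2 le_rfl
  obtain ⟨q4, hq4, t, ⟨hs, ht⟩, hst⟩ := mem_fex.1 h3 q3 le_rfl
  obtain ⟨q5, hq5, hl1⟩ := exists_long q4 (a, false) s.length
  obtain ⟨q6, hq6, hl2⟩ := exists_long q5 (b, true) t.length
  have hl1' : s.length ≤ (q6.1.c (a, false)).length := hl1.trans (hq6.1 _).length_le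
  have hs6 : s <+: q6.1.c (a, false) :=
    prefix_of_init (down_Init s _ q4 hs q6 (hq6.trans hq5)) hl1'
  have ht6 : t <+: q6.1.c (b, true) :=
    prefix_of_init (down_Init t _ q4 ht q6 (hq6.trans hq5)) hl2
  have h6a : q6 ≤ pa a := hq6.trans (hq5.trans (hq4.trans (hq3.trans (hq2.trans hle0))))
  have h6b : q6 ≤ pa b := hq6.trans (hq5.trans (hq4.trans (hq3.trans (hq2.trans hle0b))))
  -- the support of `q6`
  let Z : Finset (II ⊕ Λ) := q6.2.1.1.toFinset.image Sum.inl ∪
    q6.2.1.2.1.toFinset.image (fun x => Sum.inr x.1) ∪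
    q6.2.1.2.2.toFinset.image (fun x => Sum.inr x.1)
  obtain ⟨l, hl, hlZ⟩ : ∃ l ∈ J', ∀ z ∈ F l, z ∈ Z → z ∈ Rt := by
    by_contra hcon
    push Not at hcon
    have : ∀ l : ℕ → Bool, ∃ z : II ⊕ Λ, l ∈ J' → z ∈ F l ∧ z ∈ Z ∧ z ∉ Rt := by
      intro l
      by_cases h : l ∈ J'
      · obtain ⟨z, hz⟩ := hcon l h
        exact ⟨z, fun _ => hz⟩
      · exact ⟨Sum.inl (l, true), fun h' => absurd h' h⟩
    choose z hz using this
    obtain ⟨c, hc⟩ := Pool.Agent.Helper126.uncountable_fiber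
      (fun l => if h : z l ∈ Z then (some ⟨z l, h⟩ : Option Z) else none) J' hJ'
    obtain ⟨l, hl, l', hl', hll⟩ : ∃ l ∈ {i ∈ J' | (if h : z i ∈ Z then (some ⟨z i, h⟩ : Option Z)
        else none) = c}, ∃ l' ∈ {i ∈ J' | (if h : z i ∈ Z then (some ⟨z i, h⟩ : Option Z)
        else none) = c}, l ≠ l' := by
      by_contra h
      push Not at h
      exact hc (Set.Subsingleton.countable (fun a ha b hb => h a ha b hb))
    have h1 := hl.2.trans hl'.2.symm
    rw [dif_pos (hz l hl.1).2.1, dif_pos (hz l' hl'.1).2.1] at h1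
    have h2 : z l = z l' := congrArg Subtype.val (Option.some_injective _ h1)
    exact (hz l hl.1).2.2 (hu.delta l hl.1 l' hl'.1 hll _ (hz l hl.1).1
      (h2 ▸ (hz l' hl'.1).1))
  obtain ⟨r, hrv, hrq, hrl, hrt⟩ := copy hpv hu q6.2 hl
    (fun i => if i = (l, true) then b else a) (by intro i; split_ifs; exacts [hb, ha])
    (by intro i; split_ifs; exacts [h6b, h6a]) ha h6a
    (fun i h1 h2 => hlZ _ h1 (by
      simp only [Z, Finset.mem_union, Finset.mem_image, Set.Finite.mem_toFinset]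
      exact Or.inl (Or.inl ⟨i, h2, rfl⟩)))
    (fun x hx h => hlZ _ h (by
      simp only [Z, Finset.mem_union, Finset.mem_image, Set.Finite.mem_toFinset]
      exact Or.inl (Or.inr ⟨x, hx, rfl⟩)))
    (fun x hx h => hlZ _ h (by
      simp only [Z, Finset.mem_union, Finset.mem_image, Set.Finite.mem_toFinset]
      exact Or.inr ⟨x, hx, rfl⟩))
  obtain ⟨r', rfl⟩ : ∃ r' : S.Cond, r'.1 = r := ⟨⟨r, hrv⟩, rfl⟩
  have e1 : r'.1.c (l, false) = q6.1.c (a, false) := by
    apply hrt (l, false) (a, false) (hGf l)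
    · rw [if_neg (by simp)]; exact hGf a
    · rw [if_neg (by simp)]; exact hef a ha l hl
  have e2 : r'.1.c (l, true) = q6.1.c (b, true) := by
    apply hrt (l, true) (b, true) (hGt l)
    · rw [if_pos rfl]; exact hGt b
    · rw [if_pos rfl]; exact het b hb l hl
  have hrq' : r' ≤ q6 := hrq
  have hrl' : r' ≤ pa l := hrl
  refine hpa2 l n ((hem l hl a ha).le.trans hdd) r' hrl' ?_
  refine mem_fex_of_mem s (down_fex _) (mem_fex_of_mem t ?_ ⟨⟨?_, ?_⟩, ?_⟩)
  · exact down_fand (down_fand (down_Init _ _) (down_Init _ _)) (down_meets _)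
  · exact init_of_prefix (by rw [e1]; exact hs6)
  · exact init_of_prefix (by rw [e2]; exact ht6)
  · exact down_meets _ _ hst r' (hrq'.trans (hq6.trans hq5))

/-! ### The iteration -/

/-- the indices of the iterands; an index codes the name for the function which is bounded by the
iterand -/
inductive Idx (I : Type) : Type
  | zero : Idx I
  | mk (sub : ℕ → I → ℕ → Idx I) (nm : ℕ → I → Set (Pre I ℕ)) : Idx I

/-- `η` is used by the name coded by `ξ` -/
def Child {I : Type} (η : Idx I) : Idx I → Prop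
  | Idx.zero => False
  | Idx.mk sub _ => ∃ n i k, η = sub n i k

theorem child_wf {I : Type} : WellFounded (Child (I := I)) := by
  constructor
  intro ξ
  induction ξ with
  | zero => exact ⟨_, fun _ h => absurd h id⟩
  | mk sub nm ih =>
    refine ⟨_, ?_⟩
    rintro η ⟨n, i, k, rfl⟩
    exact ih n i k

/-- changing the indices of a precondition -/
def pmap {I Λ Λ' : Type} (f : Λ → Λ') (q : Pre I Λ) : Pre I Λ' :=
  ⟨q.c, (fun x => (f x.1, x.2)) '' q.U, (fun x => (f x.1, x.2)) '' q.E⟩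

/-- pulling back a precondition -/
def pcomap {I Λ Λ' : Type} (f : Λ → Λ') (q : Pre I Λ') : Pre I Λ :=
  ⟨q.c, {x | (f x.1, x.2) ∈ q.U}, {x | (f x.1, x.2) ∈ q.E}⟩

theorem pmap_pcomap {I Λ Λ' : Type} (f : Λ → Λ') (q : Pre I Λ') (hU : ∀ x ∈ q.U, x.1 ∈ Set.range f)
    (hE : ∀ x ∈ q.E, x.1 ∈ Set.range f) : pmap f (pcomap f q) = q := by
  unfold pmap pcomap
  obtain ⟨c, U, E⟩ := q
  congr 1
  · ext x
    constructor
    · rintro ⟨y, hy, rfl⟩
      exact hy
    · intro hx
      obtain ⟨k, hk⟩ := hU x hx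
      refine ⟨(k, x.2), ?_, by simp only [hk]⟩
      show (f k, x.2) ∈ U
      rw [hk]
      exact hx
  · ext x
    constructor
    · rintro ⟨y, hy, rfl⟩
      exact hy
    · intro hx
      obtain ⟨k, hk⟩ := hE x hx
      refine ⟨(k, x.2), ?_, by simp only [hk]⟩
      show (f k, x.2) ∈ E
      rw [hk]
      exact hx

/-- the name coded by an index -/
def nameOf {I : Type} : Idx I → ℕ → I → Set (Pre I (Idx I))
  | Idx.zero => fun _ _ => ∅
  | Idx.mk sub nm => fun n i => pmap (sub n i) '' nm n i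

/-- the iteration -/
def uIter (I : Type) : Iter I (Idx I) where
  lt := Relation.TransGen Child
  trans := fun _ _ _ h1 h2 => h1.trans h2
  wf := child_wf.transGen
  A := nameOf
  supp := by
    intro ξ n i r hr
    cases ξ with
    | zero => exact absurd hr (Set.notMem_empty _)
    | mk sub nm =>
      obtain ⟨q, _, rfl⟩ := hr
      constructor
      · rintro _ ⟨x, _, rfl⟩
        exact Relation.TransGen.single ⟨n, i, x.1, rfl⟩
      · rintro _ ⟨x, _, rfl⟩
        exact Relation.TransGen.single ⟨n, i, x.1, rfl⟩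

theorem universal (I : Type) : Universal (uIter I) := by
  intro N hN hfin
  have hex : ∀ n i, ∃ f : ℕ → Idx I, ∀ r ∈ N n i, (∀ x ∈ r.U, x.1 ∈ Set.range f) ∧
      ∀ x ∈ r.E, x.1 ∈ Set.range f := by
    intro n i
    have hc : (insert Idx.zero (⋃ r ∈ N n i, (Prod.fst '' r.U ∪ Prod.fst '' r.E))).Countable := by
      refine Set.Countable.insert _ ((hN n i).biUnion fun r hr => ?_)
      exact (((hfin n i r hr).2.1.image _).union ((hfin n i r hr).2.2.image _)).countable
    obtain ⟨f, hf⟩ := hc.exists_eq_range ⟨_, Set.mem_insert _ _⟩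
    refine ⟨f, fun r hr => ⟨fun x hx => ?_, fun x hx => ?_⟩⟩
    · rw [← hf]
      exact Or.inr (Set.mem_biUnion hr (Or.inl ⟨x, hx, rfl⟩))
    · rw [← hf]
      exact Or.inr (Set.mem_biUnion hr (Or.inr ⟨x, hx, rfl⟩))
  choose f hf using hex
  refine ⟨Idx.mk f (fun n i => pcomap (f n i) '' N n i), fun n i => ?_⟩
  show pmap (f n i) '' (pcomap (f n i) '' N n i) = N n i
  rw [Set.image_image]
  ext r
  constructor
  · rintro ⟨r', hr', rfl⟩
    simp only [pmap_pcomap _ _ (hf n i r' hr').1 (hf n i r' hr').2]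
    exact hr'
  · intro hr
    exact ⟨r, hr, pmap_pcomap _ _ (hf n i r hr).1 (hf n i r hr).2⟩

theorem main : ∃ (P : Type) (_ : Preorder P), Nonempty P ∧ ∀ p : P, p ∈ DeltaSetWithBadSquare P := by
  refine ⟨(uIter II).Cond, inferInstance, ⟨⟨_, Iter.valid_empty⟩⟩, fun p => ?_⟩
  refine mem_fex_of_mem II (down_fex _) (mem_fex_of_mem (X (uIter II)) ?_ ⟨?_, ?_, ⟨?_, ?_⟩, ?_⟩)
  · refine down_fand (down_fall fun _ => down_IsFun _)
      (down_fand ?_ (down_fand (down_fand ?_ ?_) (down_fnot _)))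
    · exact down_fall fun _ => down_fall fun _ => down_fall fun _ => down_fnot _
    · exact down_fall fun _ => down_fimp _ _
    · exact down_fall fun _ => down_fex _
  · exact fun i => isFun_X i p
  · exact fun i j hij => not_same i j hij p
  · exact isDelta (universal II) p
  · exact isQ (universal II) p
  · exact not_square p

end Pool.Agent.K4H97.DS
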