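import Pool.Agent.K4H97.DS.Base

/-!
# Uniform families of conditions, and copying
-/

set_option autoImplicit false

namespace Pool.Agent.K4H97.DS

open Pre

variable {I Λ : Type} {S : Iter I Λ} {J : Type}

/-- the family `p` of conditions is uniform on `J'`: the supports `F a` form a Delta-system with
root `R`, and the conditions look the same after the supports are mapped to `ℕ` by `φ a`. -/
structure Uniform (p : J → Pre I Λ) (J' : Set J) (R : Finset (I ⊕ Λ)) (F : J → Finset (I ⊕ Λ))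
    (φ : J → I ⊕ Λ → ℕ) : Prop where
  inj : ∀ a ∈ J', Set.InjOn (φ a) (F a)
  root : ∀ a ∈ J', R ⊆ F a
  delta : ∀ a ∈ J', ∀ b ∈ J', a ≠ b → ∀ z ∈ F a, z ∈ F b → z ∈ R
  phiR : ∀ a ∈ J', ∀ b ∈ J', ∀ z ∈ R, φ a z = φ b z
  suppc : ∀ a ∈ J', ∀ i, (p a).c i ≠ [] → Sum.inl i ∈ F a
  suppU : ∀ a ∈ J', ∀ x ∈ (p a).U, Sum.inr x.1 ∈ F a
  suppE : ∀ a ∈ J', ∀ x ∈ (p a).E, Sum.inr x.1 ∈ F a ∧ Sum.inl x.2.2 ∈ F a
  hc : ∀ a ∈ J', ∀ b ∈ J', ∀ i, Sum.inl i ∈ F a → ∃ i', Sum.inl i' ∈ F b ∧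
    φ b (Sum.inl i') = φ a (Sum.inl i) ∧ (p b).c i' = (p a).c i
  hU : ∀ a ∈ J', ∀ b ∈ J', ∀ ξ m s, (ξ, m, s) ∈ (p a).U → ∃ ξ', (ξ', m, s) ∈ (p b).U ∧
    φ b (Sum.inr ξ') = φ a (Sum.inr ξ)
  hE : ∀ a ∈ J', ∀ b ∈ J', ∀ ξ n i, (ξ, n, i) ∈ (p a).E → ∃ ξ' i', (ξ', n, i') ∈ (p b).E ∧
    φ b (Sum.inr ξ') = φ a (Sum.inr ξ) ∧ φ b (Sum.inl i') = φ a (Sum.inl i)

theorem exists_phi {Z : Type} (F : Finset Z) : ∃ f : Z → ℕ, Set.InjOn f F :=
  Set.countable_iff_exists_injOn.1 F.finite_toSet.countable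

/-- every uncountable family of conditions has an uncountable uniform subfamily -/
theorem exists_uniform (p : J → Pre I Λ) (hp : ∀ a, Pre.Fin (p a)) (G : J → Finset I)
    {C : Type} [Countable C] (extra : (J → I ⊕ Λ → ℕ) → J → C) (J0 : Set J)
    (hJ0 : ¬ J0.Countable) :
    ∃ (J' : Set J) (R : Finset (I ⊕ Λ)) (F : J → Finset (I ⊕ Λ)) (φ : J → I ⊕ Λ → ℕ),
      J' ⊆ J0 ∧ ¬ J'.Countable ∧ Uniform p J' R F φ ∧ (∀ a, ∀ i ∈ G a, Sum.inl i ∈ F a) ∧
      ∀ a ∈ J', ∀ b ∈ J', extra φ a = extra φ b := by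
  classical
  let F : J → Finset (I ⊕ Λ) := fun a =>
    (hp a).1.toFinset.image Sum.inl ∪ (hp a).2.1.toFinset.image (fun x => Sum.inr x.1) ∪
      (hp a).2.2.toFinset.image (fun x => Sum.inr x.1) ∪
      (hp a).2.2.toFinset.image (fun x => Sum.inl x.2.2) ∪ (G a).image Sum.inl
  choose φ hφ using fun a => exists_phi (F a)
  have fc : ∀ a i, (p a).c i ≠ [] → Sum.inl i ∈ F a := by
    intro a i h
    simp only [F, Finset.mem_union, Finset.mem_image, Set.Finite.mem_toFinset]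
    exact Or.inl (Or.inl (Or.inl (Or.inl ⟨i, h, rfl⟩)))
  have fU : ∀ a, ∀ x ∈ (p a).U, Sum.inr x.1 ∈ F a := by
    intro a x h
    simp only [F, Finset.mem_union, Finset.mem_image, Set.Finite.mem_toFinset]
    exact Or.inl (Or.inl (Or.inl (Or.inr ⟨x, h, rfl⟩)))
  have fE : ∀ a, ∀ x ∈ (p a).E, Sum.inr x.1 ∈ F a ∧ Sum.inl x.2.2 ∈ F a := by
    intro a x h
    simp only [F, Finset.mem_union, Finset.mem_image, Set.Finite.mem_toFinset]
    exact ⟨Or.inl (Or.inl (Or.inr ⟨x, h, rfl⟩)), Or.inl (Or.inr ⟨x, h, rfl⟩)⟩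
  have fG : ∀ a, ∀ i ∈ G a, Sum.inl i ∈ F a := by
    intro a i h
    simp only [F, Finset.mem_union, Finset.mem_image, Set.Finite.mem_toFinset]
    exact Or.inr ⟨i, h, rfl⟩
  obtain ⟨J1, R, h1, h2, h3, h4⟩ := Pool.Agent.Helper126.delta_system F J0 hJ0
  let code : J → (Finset (ℕ × ℕ × List Bool) × Finset (ℕ × ℕ × ℕ) × Finset (ℕ × List Bool)) ×
      (R → ℕ) × C := fun a =>
    (((hp a).2.1.toFinset.image (fun x => (φ a (Sum.inr x.1), x.2.1, x.2.2)),
      (hp a).2.2.toFinset.image (fun x => (φ a (Sum.inr x.1), x.2.1, φ a (Sum.inl x.2.2))),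
      (F a).biUnion (fun z => match z with
        | Sum.inl i => {(φ a (Sum.inl i), (p a).c i)}
        | Sum.inr _ => ∅)),
      (fun z => φ a z.1), extra φ a)
  obtain ⟨cc, hcc⟩ := Pool.Agent.Helper126.uncountable_fiber code J1 h2
  refine ⟨{i ∈ J1 | code i = cc}, R, F, φ, fun a ha => h1 ha.1, hcc, ?_, fG, ?_⟩
  · have hcode : ∀ a ∈ {i ∈ J1 | code i = cc}, ∀ b ∈ {i ∈ J1 | code i = cc}, code a = code b :=
      fun a ha b hb => ha.2.trans hb.2.symm
    refine ⟨fun a _ => hφ a, fun a ha => h3 a ha.1, fun a ha b hb => h4 a ha.1 b hb.1, ?_,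
      fun a _ => fc a, fun a _ => fU a, fun a _ => fE a, ?_, ?_, ?_⟩
    · intro a ha b hb z hz
      have h := congrArg (fun c => c.2.1) (hcode a ha b hb)
      exact congrFun h ⟨z, hz⟩
    · intro a ha b hb i hi
      have h : (code a).1.2.2 = (code b).1.2.2 := by rw [hcode a ha b hb]
      have h5 : (φ a (Sum.inl i), (p a).c i) ∈ (code a).1.2.2 := by
        simp only [code, Finset.mem_biUnion]
        exact ⟨Sum.inl i, hi, by simp⟩
      rw [h] at h5
      simp only [code, Finset.mem_biUnion] at h5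
      obtain ⟨z, hz, h6⟩ := h5
      rcases z with i' | ξ
      · simp only [Finset.mem_singleton, Prod.mk.injEq] at h6
        exact ⟨i', hz, h6.1.symm, h6.2.symm⟩
      · simp at h6
    · intro a ha b hb ξ m s hU
      have h : (code a).1.1 = (code b).1.1 := by rw [hcode a ha b hb]
      have h5 : (φ a (Sum.inr ξ), m, s) ∈ (code a).1.1 := by
        simp only [code, Finset.mem_image, Set.Finite.mem_toFinset]
        exact ⟨(ξ, m, s), hU, rfl⟩
      rw [h] at h5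
      simp only [code, Finset.mem_image, Set.Finite.mem_toFinset] at h5
      obtain ⟨⟨ξ', m', s'⟩, hx, h6⟩ := h5
      simp only [Prod.mk.injEq] at h6
      obtain ⟨h7, rfl, rfl⟩ := h6
      exact ⟨ξ', hx, h7⟩
    · intro a ha b hb ξ n i hE
      have h : (code a).1.2.1 = (code b).1.2.1 := by rw [hcode a ha b hb]
      have h5 : (φ a (Sum.inr ξ), n, φ a (Sum.inl i)) ∈ (code a).1.2.1 := by
        simp only [code, Finset.mem_image, Set.Finite.mem_toFinset]
        exact ⟨(ξ, n, i), hE, rfl⟩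
      rw [h] at h5
      simp only [code, Finset.mem_image, Set.Finite.mem_toFinset] at h5
      obtain ⟨⟨ξ', n', i'⟩, hx, h6⟩ := h5
      simp only [Prod.mk.injEq] at h6
      obtain ⟨h7, rfl, h8⟩ := h6
      exact ⟨ξ', i', hx, h7, h8⟩
  · intro a ha b hb
    have h := congrArg (fun c => c.2.2) (ha.2.trans hb.2.symm)
    exact h

/-- **Copying.** Let `q` be a condition such that every member `p (g i)` of the uniform family is
weaker than `q`, and let the support of `p l` meet that of `q` only in the root. Then `q` and `p l`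
have a common extension `r` such that the stem of `r` at `i` is that of `q` at the twin of `i` in
the support of `p (g i)`. -/
theorem copy {p : J → Pre I Λ} {J' : Set J} {R : Finset (I ⊕ Λ)} {F : J → Finset (I ⊕ Λ)}
    {φ : J → I ⊕ Λ → ℕ} (hp : ∀ a, S.Valid (p a)) (hu : Uniform p J' R F φ) {q : Pre I Λ}
    (hq : S.Valid q) {l : J} (hl : l ∈ J') (g : I → J) (hg : ∀ i, g i ∈ J')
    (hqg : ∀ i, Le q (p (g i))) {a0 : J} (ha0 : a0 ∈ J') (hqa0 : Le q (p a0))
    (hc : ∀ i, Sum.inl i ∈ F l → q.c i ≠ [] → Sum.inl i ∈ R)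
    (hU : ∀ x ∈ q.U, Sum.inr x.1 ∈ F l → Sum.inr x.1 ∈ R)
    (hE : ∀ x ∈ q.E, Sum.inr x.1 ∈ F l → Sum.inr x.1 ∈ R) :
    ∃ r, S.Valid r ∧ Le r q ∧ Le r (p l) ∧
      ∀ i i', Sum.inl i ∈ F l → Sum.inl i' ∈ F (g i) →
        φ (g i) (Sum.inl i') = φ l (Sum.inl i) → r.c i = q.c i' := by
  classical
  have htw : ∀ i, ∃ i', Sum.inl i ∈ F l → Sum.inl i' ∈ F (g i) ∧
      φ (g i) (Sum.inl i') = φ l (Sum.inl i) ∧ (p (g i)).c i' = (p l).c i := by
    intro i
    by_cases h : Sum.inl i ∈ F l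
    · obtain ⟨i', h1, h2, h3⟩ := hu.hc l hl (g i) (hg i) i h
      exact ⟨i', fun _ => ⟨h1, h2, h3⟩⟩
    · exact ⟨i, fun h' => absurd h' h⟩
  choose τ hτ using htw
  have htu : ∀ i i', Sum.inl i ∈ F l → Sum.inl i' ∈ F (g i) →
      φ (g i) (Sum.inl i') = φ l (Sum.inl i) → i' = τ i := by
    intro i i' h1 h2 h3
    obtain ⟨h4, h5, -⟩ := hτ i h1
    have := hu.inj (g i) (hg i) h2 h4 (h3.trans h5.symm)
    exact Sum.inl_injective this
  have hroot : ∀ i, Sum.inl i ∈ R → τ i = i := by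
    intro i hi
    refine (htu i i (hu.root l hl hi) (hu.root _ (hg i) hi) ?_).symm
    exact hu.phiR _ (hg i) l hl _ hi
  let rc : I → List Bool := fun i => if Sum.inl i ∈ F l then q.c (τ i) else q.c i
  have hrin : ∀ i, Sum.inl i ∈ F l → rc i = q.c (τ i) := fun i h => if_pos h
  have hrout : ∀ i, Sum.inl i ∉ F l → rc i = q.c i := fun i h => if_neg h
  have hrq : ∀ i, q.c i <+: rc i := by
    intro i
    by_cases h : Sum.inl i ∈ F l
    · by_cases h2 : q.c i = []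
      · rw [h2]; exact List.nil_prefix
      · rw [hrin i h, hroot i (hc i h h2)]
    · rw [hrout i h]
  have hrl : ∀ i, (p l).c i <+: rc i := by
    intro i
    by_cases h : Sum.inl i ∈ F l
    · rw [hrin i h, ← (hτ i h).2.2]
      exact (hqg i).1 _
    · have : (p l).c i = [] := by
        by_contra h2
        exact h (hu.suppc l hl i h2)
      rw [this]; exact List.nil_prefix
  have h1 : Le (⟨rc, q.U ∪ (p l).U, q.E ∪ (p l).E⟩ : Pre I Λ) q :=
    ⟨hrq, Set.subset_union_left, Set.subset_union_left⟩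
  have h2 : Le (⟨rc, q.U ∪ (p l).U, q.E ∪ (p l).E⟩ : Pre I Λ) (p l) :=
    ⟨hrl, Set.subset_union_right, Set.subset_union_right⟩
  refine ⟨⟨rc, q.U ∪ (p l).U, q.E ∪ (p l).E⟩, ?_, h1, h2, ?_⟩
  · refine Iter.valid_of ⟨?_, hq.1.2.1.union (hp l).1.2.1, hq.1.2.2.union (hp l).1.2.2⟩ ?_ ?_
    · refine (hq.1.1.union (((F l).finite_toSet.preimage
        (Sum.inl_injective.injOn (s := Sum.inl ⁻¹' (F l : Set (I ⊕ Λ))))))).subset ?_
      intro i hi
      by_cases h : Sum.inl i ∈ F l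
      · exact Or.inr h
      · left
        show q.c i ≠ []
        rw [← hrout i h]
        exact hi
    · intro ξ m s n i hxU hxE hnm
      rcases hxU with hxU | hxU <;> rcases hxE with hxE | hxE
      · exact (hq.2.1 ξ m s n i hxU hxE hnm).mono (hrq i)
      · -- open set from `q`, promise from `p l`
        have hξ : Sum.inr ξ ∈ R := hU _ hxU (hu.suppE l hl _ hxE).1
        have hi : Sum.inl i ∈ F l := (hu.suppE l hl _ hxE).2
        obtain ⟨ξ', i'', h3, h4, h5⟩ := hu.hE l hl (g i) (hg i) ξ n i hxE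
        have h6 : ξ' = ξ := by
          have h7 := hu.inj (g i) (hg i) (hu.suppE _ (hg i) _ h3).1 (hu.root _ (hg i) hξ)
            (h4.trans (hu.phiR l hl (g i) (hg i) _ hξ))
          exact Sum.inr_injective h7
        have h7 : i'' = τ i := htu i i'' hi (hu.suppE _ (hg i) _ h3).2 h5
        subst h6 h7
        show Perp (rc i) s
        rw [hrin i hi]
        exact hq.2.1 ξ' m s n _ hxU ((hqg i).2.2 h3) hnm
      · -- open set from `p l`, promise from `q`
        have hξ : Sum.inr ξ ∈ R := hE _ hxE (hu.suppU l hl _ hxU)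
        obtain ⟨ξ', h3, h4⟩ := hu.hU l hl a0 ha0 ξ m s hxU
        have h6 : ξ' = ξ := by
          have h7 := hu.inj a0 ha0 (hu.suppU _ ha0 _ h3) (hu.root _ ha0 hξ)
            (h4.trans (hu.phiR l hl a0 ha0 _ hξ))
          exact Sum.inr_injective h7
        subst h6
        exact (hq.2.1 ξ' m s n i (hqa0.2.1 h3) hxE hnm).mono (hrq i)
      · exact ((hp l).2.1 ξ m s n i hxU hxE hnm).mono (hrl i)
    · rintro x (hx | hx)
      · exact ⟨q, hq, h1, hx⟩
      · exact ⟨p l, hp l, h2, hx⟩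
  · intro i i' h3 h4 h5
    show rc i = q.c i'
    rw [hrin i h3, htu i i' h3 h4 h5]

/-- any two members of a uniform family are compatible -/
theorem compat {p : J → Pre I Λ} {J' : Set J} {R : Finset (I ⊕ Λ)} {F : J → Finset (I ⊕ Λ)}
    {φ : J → I ⊕ Λ → ℕ} (hp : ∀ a, S.Valid (p a)) (hu : Uniform p J' R F φ) {a b : J}
    (ha : a ∈ J') (hb : b ∈ J') : ∃ r, S.Valid r ∧ Le r (p a) ∧ Le r (p b) := by
  by_cases hab : a = b
  · subst hab
    exact ⟨p a, hp a, Le.refl _, Le.refl _⟩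
  · obtain ⟨r, h1, h2, h3, -⟩ := copy hp hu (hp a) hb (fun _ => a) (fun _ => ha)
      (fun _ => Le.refl _) ha (Le.refl _)
      (fun i h1 h2 => hu.delta a ha b hb hab _ (hu.suppc a ha i h2) h1)
      (fun x hx h => hu.delta a ha b hb hab _ (hu.suppU a ha x hx) h)
      (fun x hx h => hu.delta a ha b hb hab _ (hu.suppE a ha x hx).1 h)
    exact ⟨r, h1, h2, h3⟩

/-- the countable chain condition -/
theorem ccc (K : Set S.Cond) (hK : ∀ a ∈ K, ∀ b ∈ K, a ≠ b → ¬ ∃ r : S.Cond, r ≤ a ∧ r ≤ b) :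
    K.Countable := by
  by_contra hcon
  obtain ⟨J', R, F, φ, h1, h2, h3, -, -⟩ := exists_uniform (fun a : S.Cond => a.1)
    (fun a => a.2.1) (fun _ => ∅) (C := Unit) (fun _ _ => ()) K hcon
  have h4 : ∃ a ∈ J', ∃ b ∈ J', a ≠ b := by
    by_contra h
    push Not at h
    apply h2
    exact Set.Subsingleton.countable (fun a ha b hb => h a ha b hb)
  obtain ⟨a, ha, b, hb, hab⟩ := h4
  obtain ⟨r, hr, hra, hrb⟩ := compat (fun a => a.2) h3 ha hb
  exact hK a (h1 ha) b (h1 hb) hab ⟨⟨r, hr⟩, hra, hrb⟩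

/-- a countable set which is predense in a given open set -/
theorem exists_countable_predense (N : Set S.Cond) :
    ∃ C ⊆ N, C.Countable ∧ ∀ q ∈ N, ∃ c ∈ C, ∃ r : S.Cond, r ≤ q ∧ r ≤ c := by
  obtain ⟨C, hC⟩ : ∃ C : Set S.Cond, Maximal (fun C : Set S.Cond => C ⊆ N ∧
      ∀ a ∈ C, ∀ b ∈ C, a ≠ b → ¬ ∃ r : S.Cond, r ≤ a ∧ r ≤ b) C := by
    apply zorn_subset
    intro c hc1 hc2
    refine ⟨⋃₀ c, ⟨?_, ?_⟩, ?_⟩
    · exact Set.sUnion_subset fun s hs => (hc1 hs).1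
    · rintro i ⟨s, hs, his⟩ j ⟨s', hs', hjs'⟩ hij
      rcases hc2.total hs hs' with h | h
      · exact (hc1 hs').2 i (h his) j hjs' hij
      · exact (hc1 hs).2 i his j (h hjs') hij
    · intro s hs
      exact Set.subset_sUnion_of_mem hs
  refine ⟨C, hC.1.1, ccc C hC.1.2, ?_⟩
  intro q hq
  by_contra hcon
  push Not at hcon
  have hins : insert q C ⊆ C := by
    apply hC.2 (y := insert q C) ?_ (Set.subset_insert _ _)
    refine ⟨Set.insert_subset hq hC.1.1, ?_⟩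
    rintro a (rfl | ha) b (rfl | hb) hab
    · exact absurd rfl hab
    · rintro ⟨r, hr1, hr2⟩
      exact hcon b hb r hr1 hr2
    · rintro ⟨r, hr1, hr2⟩
      exact hcon a ha r hr2 hr1
    · exact hC.1.2 a ha b hb hab
  exact hcon q (hins (Set.mem_insert _ _)) q le_rfl le_rfl

end Pool.Agent.K4H97.DS
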